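import Pool.Agent.Helper8_BRW.Stmts

/-!
# Squad BRW: module CRU
-/

set_option autoImplicit false

open MeasureTheory Set Filter

namespace BRW.H48

theorem zpow_nb (r : ℝ) (hr : 1 ≤ r) (k : ℤ) :
    r ^ (k + 1) = r * r ^ k ∧ r ^ (k - 1) ≤ r ^ k ∧ 0 < r ^ k := by
  have h0 : r ≠ 0 := by linarith
  refine ⟨by rw [zpow_add_one₀ h0]; ring, ?_, by positivity⟩
  exact zpow_le_zpow_right₀ hr (by linarith)

/-- The comparison behind all four estimates: a function `u` which is bounded above, with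
`u ≤ E` at time zero and outside the active set, and derivative at most
`((u(x+1)+u(x-1))/2 - u) + b u` there, is at most `E t x = exp ((b + r/2) t) g x`. -/
theorem core (hmax : MaxStmt) (b r : ℝ) (hb : 0 ≤ b) (_hr : 1 ≤ r) (g : ℤ → ℝ)
    (hg0 : ∀ x, 0 < g x) (hg : ∀ x, (g (x + 1) + g (x - 1)) / 2 ≤ (r + 1) / 2 * g x)
    (u : ℝ → ℤ → ℝ) (hbd : ∀ T, ∃ B, ∀ t x, 0 ≤ t → t ≤ T → u t x ≤ B)
    (h0 : ∀ x, u 0 x ≤ g x) (hc : ∀ x, ContinuousOn (fun t => u t x) (Ici 0))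
    (hd : ∀ t x, 0 ≤ t → Real.exp ((b + r / 2) * t) * g x < u t x →
      ∃ d, HasDerivWithinAt (fun s => u s x) d (Ici 0) t ∧
        d ≤ (u t (x + 1) + u t (x - 1)) / 2 - u t x + b * u t x) :
    ∀ t x, 0 ≤ t → u t x ≤ Real.exp ((b + r / 2) * t) * g x := by
  intro t x ht
  obtain ⟨B, hB⟩ := hbd t
  have key := hmax (fun s z => u s z - Real.exp ((b + r / 2) * s) * g z) t b B (fun _ => 0) hb
    (fun _ => le_rfl) ?_ ?_ ?_ ?_ t x ht le_rfl
  · simpa using key
  · intro s z hs hst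
    have h1 := hB s z hs hst
    have h2 : 0 < Real.exp ((b + r / 2) * s) * g z := mul_pos (Real.exp_pos _) (hg0 z)
    show u s z - Real.exp ((b + r / 2) * s) * g z ≤ B
    linarith
  · intro s z hs _ hs0
    have : s = 0 := le_antisymm hs0 hs
    subst this
    show u 0 z - Real.exp ((b + r / 2) * 0) * g z ≤ 0
    simpa using h0 z
  · intro z
    refine ContinuousOn.sub ((hc z).mono fun s hs => hs.1) ?_
    fun_prop
  · intro s z hs _ hpos
    have hpos' : 0 < u s z - Real.exp ((b + r / 2) * s) * g z := hpos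
    obtain ⟨d, hd1, hd2⟩ := hd s z hs (by linarith)
    have hE : HasDerivAt (fun s : ℝ => Real.exp ((b + r / 2) * s) * g z)
        (Real.exp ((b + r / 2) * s) * ((b + r / 2) * 1) * g z) s :=
      (((hasDerivAt_id s).const_mul (b + r / 2)).exp).mul_const (g z)
    refine ⟨d - Real.exp ((b + r / 2) * s) * ((b + r / 2) * 1) * g z, ?_, ?_⟩
    · exact (hd1.mono fun q hq => le_trans hs hq).sub hE.hasDerivWithinAt
    · show _ ≤ (max (u s (z + 1) - Real.exp ((b + r / 2) * s) * g (z + 1)) 0 +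
        max (u s (z - 1) - Real.exp ((b + r / 2) * s) * g (z - 1)) 0) / 2 +
        b * (u s z - Real.exp ((b + r / 2) * s) * g z)
      set e := Real.exp ((b + r / 2) * s) with he
      have he0 : 0 < e := Real.exp_pos _
      have h1 := le_max_left (u s (z + 1) - e * g (z + 1)) 0
      have h2 := le_max_left (u s (z - 1) - e * g (z - 1)) 0
      have h3 := mul_le_mul_of_nonneg_left (hg z) he0.le
      have h4 := hg0 z
      have h5 : 0 < e * g z := mul_pos he0 h4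
      nlinarith

theorem sol_cont (ξ : ℤ → ℝ) (A : Set ℤ) (f : ℤ → ℝ) (u : ℝ → ℤ → ℝ) (h : IsSol ξ A f u)
    (x : ℤ) : ContinuousOn (fun t => u t x) (Ici 0) := by
  by_cases hx : x ∈ A
  · exact fun t ht => (h.deriv t x ht hx).continuousWithinAt
  · exact (continuousOn_const (c := f x)).congr fun t ht => h.stat t x ht hx

theorem lin_cont (ξ : ℤ → ℝ) (b : ℝ) (y : ℤ) (u : ℝ → ℤ → ℝ) (h : IsLin ξ b y u)
    (x : ℤ) : ContinuousOn (fun t => u t x) (Ici 0) := by
  rcases lt_or_ge x y with hx | hx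
  · exact fun t ht => (h.deriv t x ht hx).continuousWithinAt
  · exact (continuousOn_const (c := (1 : ℝ))).congr fun t ht => h.bdry t x ht hx

theorem one_le_zp (r : ℝ) (hr : 1 ≤ r) (k : ℤ) (hk : 0 ≤ k) : 1 ≤ r ^ k :=
  one_le_zpow₀ hr hk

theorem ind_le (r : ℝ) (hr : 1 ≤ r) (y x : ℤ) : ind y x ≤ r ^ (x - y) := by
  unfold ind
  split_ifs with h
  · exact one_le_zp r hr _ (by linarith)
  · have : 0 < r ^ (x - y) := (zpow_nb r hr _).2.2
    exact this.le

theorem gR (r : ℝ) (hr : 1 ≤ r) (y x : ℤ) :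
    (r ^ (x + 1 - y) + r ^ (x - 1 - y)) / 2 ≤ (r + 1) / 2 * r ^ (x - y) := by
  have h := zpow_nb r hr (x - y)
  have e1 : x + 1 - y = x - y + 1 := by ring
  have e2 : x - 1 - y = x - y - 1 := by ring
  rw [e1, e2, h.1]
  linarith [h.2.1]

theorem gL (r : ℝ) (hr : 1 ≤ r) (y x : ℤ) :
    (r ^ (y - (x + 1)) + r ^ (y - (x - 1))) / 2 ≤ (r + 1) / 2 * r ^ (y - x) := by
  have h := zpow_nb r hr (y - x)
  have e1 : y - (x + 1) = y - x - 1 := by ring
  have e2 : y - (x - 1) = y - x + 1 := by ring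
  rw [e1, e2, h.1]
  linarith [h.2.1]

theorem sol_le (hmax : MaxStmt) (a b : ℝ) (ξ : ℤ → ℝ) (hE : Env a b ξ) (y : ℤ) (r : ℝ)
    (hr : 1 ≤ r) (A : Set ℤ) (hA : Iio y ⊆ A) (u : ℝ → ℤ → ℝ) (hu : IsSol ξ A (ind y) u) :
    ∀ t x, 0 ≤ t → u t x ≤ Real.exp ((b + r / 2) * t) * r ^ (x - y) := by
  have hb : 0 < b := lt_of_lt_of_le hE.1 ((hE.2 0).1.trans (hE.2 0).2)
  refine core hmax b r hb.le hr (fun x => r ^ (x - y)) (fun x => (zpow_nb r hr _).2.2)
    (fun x => gR r hr y x) u (fun T => ⟨1, fun t x ht _ => hu.le_one t x ht⟩)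
    (fun x => (hu.init x).le.trans (ind_le r hr y x)) (sol_cont ξ _ _ u hu) ?_
  intro t x ht hgt
  have hxA : x ∈ A := by
    rcases lt_or_ge x y with hx | hx
    · exact hA hx
    · exfalso
      have h1 := hu.le_one t x ht
      have h2 : 1 ≤ Real.exp ((b + r / 2) * t) := Real.one_le_exp (by positivity)
      have h3 : (1 : ℝ) ≤ r ^ (x - y) := one_le_zp r hr _ (by linarith)
      have h4 : 1 * 1 ≤ Real.exp ((b + r / 2) * t) * r ^ (x - y) :=
        mul_le_mul h2 h3 zero_le_one (by linarith)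
      linarith
  refine ⟨_, hu.deriv t x ht hxA, ?_⟩
  have h1 := hu.nonneg t x ht
  have h2 := (hE.2 x).2
  have h3 : 0 ≤ ξ x := hE.1.le.trans (hE.2 x).1
  unfold lap
  have h4 : ξ x * (u t x * (1 - u t x)) ≤ b * u t x := by
    have h5 : ξ x * (u t x * (1 - u t x)) ≤ ξ x * u t x := by
      refine mul_le_mul_of_nonneg_left ?_ h3
      nlinarith
    exact h5.trans (mul_le_mul_of_nonneg_right h2 h1)
  linarith

theorem lin_le (hmax : MaxStmt) (a b : ℝ) (ξ : ℤ → ℝ) (hE : Env a b ξ) (y : ℤ) (r : ℝ)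
    (hr : 1 ≤ r) (u : ℝ → ℤ → ℝ) (hu : IsLin ξ b y u) :
    ∀ t x, 0 ≤ t → u t x ≤ Real.exp ((b + r / 2) * t) * r ^ (x - y) := by
  have hb : 0 < b := lt_of_lt_of_le hE.1 ((hE.2 0).1.trans (hE.2 0).2)
  have hone : ∀ t x, 0 ≤ t → y ≤ x → 1 ≤ Real.exp ((b + r / 2) * t) * r ^ (x - y) := by
    intro t x ht hx
    have h2 : 1 ≤ Real.exp ((b + r / 2) * t) := Real.one_le_exp (by positivity)
    have h3 : (1 : ℝ) ≤ r ^ (x - y) := one_le_zp r hr _ (by linarith)
    have h4 : 1 * 1 ≤ Real.exp ((b + r / 2) * t) * r ^ (x - y) :=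
      mul_le_mul h2 h3 zero_le_one (by linarith)
    linarith
  refine core hmax b r hb.le hr (fun x => r ^ (x - y)) (fun x => (zpow_nb r hr _).2.2)
    (fun x => gR r hr y x) u hu.bdd (fun x => ?_) (lin_cont ξ b y u hu) ?_
  · rcases lt_or_ge x y with hx | hx
    · rw [hu.init x hx]
      exact (zpow_nb r hr _).2.2.le
    · rw [hu.bdry 0 x le_rfl hx]
      exact one_le_zp r hr _ (by linarith)
  intro t x ht hgt
  have hx : x < y := by
    by_contra hx
    rw [not_lt] at hx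
    have h1 := hone t x ht hx
    rw [hu.bdry t x ht hx] at hgt
    linarith
  refine ⟨_, hu.deriv t x ht hx, ?_⟩
  have h1 := hu.nonneg t x ht
  have h2 := (hE.2 x).2
  unfold lap
  have h4 : ξ x * u t x ≤ b * u t x := mul_le_mul_of_nonneg_right h2 h1
  linarith

theorem one_sub_le (hmax : MaxStmt) (a b : ℝ) (ξ : ℤ → ℝ) (hE : Env a b ξ) (y : ℤ) (r : ℝ)
    (hr : 1 ≤ r) (w : ℝ → ℤ → ℝ) (hw : IsW ξ y w) :
    ∀ t x, 0 ≤ t → 1 - w t x ≤ Real.exp (r / 2 * t) * r ^ (y - x) := by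
  have key := core hmax 0 r le_rfl hr (fun x => r ^ (y - x)) (fun x => (zpow_nb r hr _).2.2)
    (fun x => gL r hr y x) (fun t x => 1 - w t x)
    (fun T => ⟨1, fun t x ht _ => by
      show 1 - w t x ≤ 1
      linarith [hw.nonneg t x ht]⟩)
    (fun x => by
      show 1 - w 0 x ≤ r ^ (y - x)
      rw [hw.init x]
      unfold ind
      split_ifs with h
      · have : 0 < r ^ (y - x) := (zpow_nb r hr _).2.2
        linarith
      · have : (1 : ℝ) ≤ r ^ (y - x) := one_le_zp r hr _ (by linarith)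
        linarith)
    (fun x => continuousOn_const.sub (sol_cont ξ _ _ w hw x)) ?_
  · intro t x ht
    have := key t x ht
    simpa using this
  intro t x ht _
  refine ⟨_, (hw.deriv t x ht (mem_univ x)).const_sub 1, ?_⟩
  have h1 := hw.nonneg t x ht
  have h2 := hw.le_one t x ht
  have h3 : 0 ≤ ξ x := hE.1.le.trans (hE.2 x).1
  have h4 : 0 ≤ ξ x * (w t x * (1 - w t x)) :=
    mul_nonneg h3 (mul_nonneg h1 (by linarith))
  show _ ≤ ((1 - w t (x + 1)) + (1 - w t (x - 1))) / 2 - (1 - w t x) + 0 * (1 - w t x)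
  unfold lap
  linarith

/-- (CRU) -/
theorem cru (hmax : MaxStmt) : CRUStmt := by
  intro a b ξ hE y r hr
  refine ⟨fun w hw => ?_, fun v hv => ?_, fun h hh => ?_, fun w hw => ?_⟩
  · exact sol_le hmax a b ξ hE y r hr univ (subset_univ _) w hw
  · exact sol_le hmax a b ξ hE y r hr (Iio y) subset_rfl v hv
  · exact lin_le hmax a b ξ hE y r hr h hh
  · exact one_sub_le hmax a b ξ hE y r hr w hw

end BRW.H48
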