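import Pool.Agent.Helper8_BRW.Stmts

/-!
# Squad BRW: module HN
-/

set_option autoImplicit false

open MeasureTheory Set Filter

namespace BRW.H48

theorem conv_eq (c : ℝ) (g : ℝ → ℝ) (s : ℝ) (hs : 0 ≤ s) :
    ∫ r in (0 : ℝ)..s, Real.exp (-(c * (s - r))) * g r =
      Real.exp (-(c * s)) * ∫ r in (0 : ℝ)..s, Real.exp (c * r) * g (max r 0) := by
  rw [← intervalIntegral.integral_const_mul]
  refine intervalIntegral.integral_congr fun r hr => ?_
  rw [uIcc_of_le hs] at hr
  show Real.exp (-(c * (s - r))) * g r = Real.exp (-(c * s)) * (Real.exp (c * r) * g (max r 0))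
  rw [max_eq_left hr.1, ← mul_assoc, ← Real.exp_add]
  congr 2
  ring

theorem conv_deriv (c : ℝ) (g : ℝ → ℝ) (hg : ContinuousOn g (Ici 0)) (t : ℝ) (ht : 0 ≤ t) :
    HasDerivWithinAt (fun s => ∫ r in (0 : ℝ)..s, Real.exp (-(c * (s - r))) * g r)
      (g t - c * ∫ r in (0 : ℝ)..t, Real.exp (-(c * (t - r))) * g r) (Ici 0) t := by
  have hgt : Continuous (fun r : ℝ => g (max r 0)) :=
    hg.comp_continuous (continuous_id.max continuous_const) (fun r => mem_Ici.2 (le_max_right r 0))
  have hF : Continuous (fun r : ℝ => Real.exp (c * r) * g (max r 0)) := by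
    refine Continuous.mul ?_ hgt
    fun_prop
  have h1 : HasDerivAt (fun s => ∫ r in (0 : ℝ)..s, Real.exp (c * r) * g (max r 0))
      (Real.exp (c * t) * g (max t 0)) t := (hF.integral_hasStrictDerivAt 0 t).hasDerivAt
  have h2 : HasDerivAt (fun s : ℝ => Real.exp (-(c * s))) (Real.exp (-(c * t)) * (-(c * 1))) t :=
    (((hasDerivAt_id t).const_mul c).neg).exp
  have h3 := (h2.mul h1).hasDerivWithinAt (s := Ici 0)
  have h4 : HasDerivWithinAt (fun s => ∫ r in (0 : ℝ)..s, Real.exp (-(c * (s - r))) * g r)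
      (Real.exp (-(c * t)) * (-(c * 1)) * (∫ r in (0 : ℝ)..t, Real.exp (c * r) * g (max r 0)) +
        Real.exp (-(c * t)) * (Real.exp (c * t) * g (max t 0))) (Ici 0) t := by
    refine h3.congr (fun s hs => ?_) ?_
    · exact conv_eq c g s hs
    · exact conv_eq c g t ht
  convert h4 using 1
  rw [conv_eq c g t ht, max_eq_left ht]
  have h5 : Real.exp (-(c * t)) * Real.exp (c * t) = 1 := by
    rw [← Real.exp_add]; simp
  linear_combination (-(g t)) * h5

theorem hn_succ_lt (ξ : ℤ → ℝ) (y : ℤ) (n : ℕ) (t : ℝ) (x : ℤ) (hx : x < y) :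
    hn ξ y (n + 1) t x = ∫ s in (0 : ℝ)..t, Real.exp (-((1 - ξ x) * (t - s))) *
        ((hn ξ y n s (x + 1) + hn ξ y n s (x - 1)) / 2) := by
  simp [hn, not_le.2 hx]

theorem hn_succ_ge (ξ : ℤ → ℝ) (y : ℤ) (n : ℕ) (t : ℝ) (x : ℤ) (hx : y ≤ x) :
    hn ξ y (n + 1) t x = 0 := by
  simp [hn, hx]

theorem hn_zero (ξ : ℤ → ℝ) (y : ℤ) (t : ℝ) (x : ℤ) :
    hn ξ y 0 t x = if y ≤ x then 1 else 0 := rfl

/-- continuity -/
theorem hn_cont (ξ : ℤ → ℝ) (y : ℤ) (n : ℕ) (x : ℤ) :
    ContinuousOn (fun t => hn ξ y n t x) (Ici 0) := by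
  induction n generalizing x with
  | zero =>
    simp only [hn_zero]
    exact continuousOn_const
  | succ n ih =>
    rcases lt_or_ge x y with hx | hx
    · simp only [hn_succ_lt ξ y n _ x hx]
      intro t ht
      exact (conv_deriv (1 - ξ x) _ (((ih (x + 1)).add (ih (x - 1))).div_const 2) t
        ht).continuousWithinAt
    · simp only [hn_succ_ge ξ y n _ x hx]
      exact continuousOn_const

theorem hn_nonneg (ξ : ℤ → ℝ) (y : ℤ) (n : ℕ) (t : ℝ) (x : ℤ) (ht : 0 ≤ t) :
    0 ≤ hn ξ y n t x := by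
  induction n generalizing x t with
  | zero => rw [hn_zero]; split_ifs <;> norm_num
  | succ n ih =>
    rcases lt_or_ge x y with hx | hx
    · rw [hn_succ_lt ξ y n _ x hx]
      refine intervalIntegral.integral_nonneg ht fun s hs => ?_
      have h1 := ih s (x + 1) hs.1
      have h2 := ih s (x - 1) hs.1
      positivity
    · rw [hn_succ_ge ξ y n _ x hx]

theorem g_cont (ξ : ℤ → ℝ) (y : ℤ) (n : ℕ) (x : ℤ) :
    ContinuousOn (fun s => (hn ξ y n s (x + 1) + hn ξ y n s (x - 1)) / 2) (Ici 0) :=
  ((hn_cont ξ y n (x + 1)).add (hn_cont ξ y n (x - 1))).div_const 2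

theorem hn_bound (a b : ℝ) (ξ : ℤ → ℝ) (hE : Env a b ξ) (y : ℤ) (n : ℕ) (t : ℝ) (x : ℤ)
    (ht : 0 ≤ t) : hn ξ y n t x ≤ Real.exp (b * t) * t ^ n / n.factorial := by
  have hb : 0 < b := lt_of_lt_of_le hE.1 ((hE.2 0).1.trans (hE.2 0).2)
  induction n generalizing x t with
  | zero =>
    rw [hn_zero]
    have h1 : 1 ≤ Real.exp (b * t) := Real.one_le_exp (by positivity)
    split_ifs
    · simpa using h1
    · positivity
  | succ n ih =>
    rcases lt_or_ge x y with hx | hx
    · rw [hn_succ_lt ξ y n _ x hx]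
      have hI : ∫ s in (0 : ℝ)..t, Real.exp (b * t) * (s ^ n / n.factorial) =
          Real.exp (b * t) * t ^ (n + 1) / (n + 1).factorial := by
        rw [intervalIntegral.integral_const_mul, intervalIntegral.integral_div, integral_pow,
          Nat.factorial_succ]
        push_cast
        have : (n.factorial : ℝ) ≠ 0 := by positivity
        field_simp
        simp
      rw [← hI]
      refine intervalIntegral.integral_mono_on ht ?_ ?_ fun s hs => ?_
      · refine ContinuousOn.intervalIntegrable ?_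
        rw [uIcc_of_le ht]
        refine ContinuousOn.mul (by fun_prop) ((g_cont ξ y n x).mono fun s hs => hs.1)
      · exact Continuous.intervalIntegrable (by fun_prop) _ _
      · have h1 := ih s (x + 1) hs.1
        have h2 := ih s (x - 1) hs.1
        have h3 : (hn ξ y n s (x + 1) + hn ξ y n s (x - 1)) / 2 ≤
            Real.exp (b * s) * s ^ n / n.factorial := by linarith
        have h4 : 0 ≤ s ^ n / (n.factorial : ℝ) := by
          have := hs.1
          positivity
        calc Real.exp (-((1 - ξ x) * (t - s))) * ((hn ξ y n s (x + 1) + hn ξ y n s (x - 1)) / 2)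
            ≤ Real.exp (-((1 - ξ x) * (t - s))) * (Real.exp (b * s) * s ^ n / n.factorial) :=
              mul_le_mul_of_nonneg_left h3 (Real.exp_nonneg _)
          _ = Real.exp (-((1 - ξ x) * (t - s)) + b * s) * (s ^ n / n.factorial) := by
              rw [Real.exp_add]; ring
          _ ≤ Real.exp (b * t) * (s ^ n / n.factorial) := by
              refine mul_le_mul_of_nonneg_right (Real.exp_le_exp.2 ?_) h4
              have h5 : ξ x ≤ b := (hE.2 x).2
              have h6 : 0 ≤ t - s := by linarith [hs.2]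
              nlinarith
    · rw [hn_succ_ge ξ y n _ x hx]
      positivity

theorem hn_scale (a b : ℝ) (ξ : ℤ → ℝ) (hE : Env a b ξ) (y : ℤ) (n : ℕ) (θ t : ℝ) (x : ℤ)
    (hθ : 0 < θ) (hθ1 : θ ≤ 1) (ht : 0 ≤ t) :
    θ ^ n * Real.exp (-(b * (1 - θ) * t)) * hn ξ y n t x ≤ hn ξ y n (θ * t) x := by
  have hb : 0 < b := lt_of_lt_of_le hE.1 ((hE.2 0).1.trans (hE.2 0).2)
  induction n generalizing x t with
  | zero =>
    rw [hn_zero, hn_zero]
    have h1 : Real.exp (-(b * (1 - θ) * t)) ≤ 1 := by
      rw [Real.exp_le_one_iff]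
      have : 0 ≤ 1 - θ := by linarith
      have h2 : 0 ≤ b * (1 - θ) * t := by positivity
      linarith
    split_ifs
    · simpa using h1
    · simp
  | succ n ih =>
    rcases lt_or_ge x y with hx | hx
    · rw [hn_succ_lt ξ y n _ x hx, hn_succ_lt ξ y n _ x hx]
      have hsub : ∫ s in (0 : ℝ)..(θ * t), Real.exp (-((1 - ξ x) * (θ * t - s))) *
          ((hn ξ y n s (x + 1) + hn ξ y n s (x - 1)) / 2) =
          ∫ s in (0 : ℝ)..t, θ * (Real.exp (-((1 - ξ x) * (θ * t - θ * s))) *
          ((hn ξ y n (θ * s) (x + 1) + hn ξ y n (θ * s) (x - 1)) / 2)) := by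
        rw [intervalIntegral.integral_const_mul]
        have := intervalIntegral.mul_integral_comp_mul_left (a := 0) (b := t)
          (f := fun s => Real.exp (-((1 - ξ x) * (θ * t - s))) *
          ((hn ξ y n s (x + 1) + hn ξ y n s (x - 1)) / 2)) θ
        rw [this]
        simp
      rw [hsub, ← intervalIntegral.integral_const_mul]
      refine intervalIntegral.integral_mono_on ht ?_ ?_ fun s hs => ?_
      · refine ContinuousOn.intervalIntegrable ?_
        rw [uIcc_of_le ht]
        refine continuousOn_const.mul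
          (ContinuousOn.mul (by fun_prop) ((g_cont ξ y n x).mono fun s hs => hs.1))
      · refine ContinuousOn.intervalIntegrable ?_
        rw [uIcc_of_le ht]
        refine continuousOn_const.mul (ContinuousOn.mul (by fun_prop) ?_)
        exact (g_cont ξ y n x).comp (f := fun s => θ * s) (by fun_prop)
          (fun s hs => mul_nonneg hθ.le hs.1)
      · have h1 := ih s (x + 1) hs.1
        have h2 := ih s (x - 1) hs.1
        have h3 : θ ^ n * Real.exp (-(b * (1 - θ) * s)) *
            ((hn ξ y n s (x + 1) + hn ξ y n s (x - 1)) / 2) ≤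
            (hn ξ y n (θ * s) (x + 1) + hn ξ y n (θ * s) (x - 1)) / 2 := by linarith
        have h4 : 0 ≤ (hn ξ y n s (x + 1) + hn ξ y n s (x - 1)) / 2 := by
          have := hn_nonneg ξ y n s (x + 1) hs.1
          have := hn_nonneg ξ y n s (x - 1) hs.1
          positivity
        calc θ ^ (n + 1) * Real.exp (-(b * (1 - θ) * t)) * (Real.exp (-((1 - ξ x) * (t - s))) *
              ((hn ξ y n s (x + 1) + hn ξ y n s (x - 1)) / 2))
            = θ ^ (n + 1) * (Real.exp (-(b * (1 - θ) * t) + -((1 - ξ x) * (t - s))) *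
              ((hn ξ y n s (x + 1) + hn ξ y n s (x - 1)) / 2)) := by
              rw [Real.exp_add]; ring
          _ ≤ θ ^ (n + 1) * (Real.exp (-((1 - ξ x) * (θ * t - θ * s)) + -(b * (1 - θ) * s)) *
              ((hn ξ y n s (x + 1) + hn ξ y n s (x - 1)) / 2)) := by
              refine mul_le_mul_of_nonneg_left (mul_le_mul_of_nonneg_right
                (Real.exp_le_exp.2 ?_) h4) (by positivity)
              have h5 : ξ x ≤ b := (hE.2 x).2
              have h6 : 0 ≤ t - s := by linarith [hs.2]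
              have h7 : 0 ≤ 1 - θ := by linarith
              have h8 : 0 ≤ (1 - ξ x + b) * ((1 - θ) * (t - s)) := by
                refine mul_nonneg (by linarith) (by positivity)
              nlinarith
          _ = θ * (Real.exp (-((1 - ξ x) * (θ * t - θ * s))) * (θ ^ n *
              Real.exp (-(b * (1 - θ) * s)) *
              ((hn ξ y n s (x + 1) + hn ξ y n s (x - 1)) / 2))) := by
              rw [Real.exp_add, pow_succ]; ring
          _ ≤ _ := by
              refine mul_le_mul_of_nonneg_left (mul_le_mul_of_nonneg_left h3 ?_) hθ.le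
              exact Real.exp_nonneg _
    · rw [hn_succ_ge ξ y n _ x hx, hn_succ_ge ξ y n _ x hx]
      simp

/-- (HN) -/
theorem hnStmt : HNStmt := by
  intro a b ξ hE y n
  refine ⟨fun x => hn_cont ξ y n x, fun t x ht => hn_nonneg ξ y n t x ht,
    fun t x ht => hn_bound a b ξ hE y n t x ht,
    fun θ t x h1 h2 h3 => hn_scale a b ξ hE y n θ t x h1 h2 h3, fun t x ht hx => ?_⟩
  have h := conv_deriv (1 - ξ x) _ (g_cont ξ y n x) t ht
  simp only [← hn_succ_lt ξ y n _ x hx] at h
  exact h

end BRW.H48
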